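import Mathlib

/-!
# The alternating continued-fraction sum algorithm: `b_2 < b_1` occurs

For every `x` in the interval `(0.247675, 0.247677)` the procedure gives `c_1 = 5`, `b_1 = 20`,
`c_2 = 18`, `b_2 = 19`; in particular `(b_n)` is not non-decreasing.
-/

set_option autoImplicit false

namespace Pool.Agent.Results.MP_7100ec_nt.NotMonotone

/-- the remainders of the continued fraction algorithm: `rem y 0 = y` and
`rem y (k + 1)` is the fractional part of `1 / rem y k` -/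
noncomputable def rem (y : ℝ) : ℕ → ℝ
  | 0 => y
  | k + 1 => Int.fract (1 / rem y k)

/-- the `n`-th partial quotient `a_n(y)` of `y ∈ (0, 1]` exists and is equal to `a` -/
def IsPQ (y : ℝ) (n a : ℕ) : Prop :=
  0 < y ∧ y ≤ 1 ∧ 1 ≤ n ∧ rem y (n - 1) ≠ 0 ∧ (a : ℤ) = ⌊1 / rem y (n - 1)⌋

/-- the value of `[d_1, ..., d_n] = 1 / (d_1 + 1 / (d_2 + ...))` -/
noncomputable def cf : List ℕ → ℝ
  | [] => 0
  | d :: l => 1 / (d + cf l)

/-- the list `[d_1, ..., d_n]` of the first `n` terms of a sequence -/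
def firstTerms (d : ℕ → ℕ) (n : ℕ) : List ℕ := (List.range n).map (fun j => d (j + 1))

/-- the procedure applied to `x` computes `c_1, b_1, c_2, b_2, ..., c_n, b_n`: `c_1 = a_1(x) + 1`,
`b_i = a_i(x - [c_1, ..., c_i])` for `1 ≤ i ≤ n`, and `c_{i+1} = a_{i+1}(x - [b_1, ..., b_i]) + 1`
for `1 ≤ i < n`, all the required partial quotients being defined -/
structure Computes (x : ℝ) (n : ℕ) (c b : ℕ → ℕ) : Prop where
  first : ∃ a : ℕ, IsPQ x 1 a ∧ c 1 = a + 1
  stepb : ∀ i : ℕ, 1 ≤ i → i ≤ n → IsPQ (x - cf (firstTerms c i)) i (b i)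
  stepc : ∀ i : ℕ, 1 ≤ i → i < n →
    ∃ a : ℕ, IsPQ (x - cf (firstTerms b i)) (i + 1) a ∧ c (i + 1) = a + 1

theorem isPQ_unique {y : ℝ} {n a a' : ℕ} (h : IsPQ y n a) (h' : IsPQ y n a') : a = a' := by
  have := h.2.2.2.2.trans h'.2.2.2.2.symm
  exact_mod_cast this

theorem isPQ_one {y : ℝ} {a : ℕ} (h0 : 0 < y) (h1 : y ≤ 1) (h2 : a * y ≤ 1) (h3 : 1 < (a + 1) * y) :
    IsPQ y 1 a := by
  refine ⟨h0, h1, le_rfl, h0.ne', ?_⟩
  change (a : ℤ) = ⌊1 / y⌋
  symm
  rw [Int.floor_eq_iff]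
  push_cast
  constructor
  · rw [le_div_iff₀ h0]; exact h2
  · rw [div_lt_iff₀ h0]; exact h3

theorem isPQ_two {y : ℝ} {a a' : ℕ} (h0 : 0 < y) (h1 : y ≤ 1) (h2 : a * y < 1)
    (h3 : 1 < (a + 1) * y) (h4 : a' * (1 - a * y) ≤ y) (h5 : y < (a' + 1) * (1 - a * y)) :
    IsPQ y 2 a' := by
  have hfl : ⌊1 / y⌋ = (a : ℤ) := by
    rw [Int.floor_eq_iff]
    push_cast
    constructor
    · rw [le_div_iff₀ h0]; exact h2.le
    · rw [div_lt_iff₀ h0]; exact h3
  have hrem : rem y 1 = (1 - a * y) / y := by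
    change Int.fract (1 / y) = _
    rw [Int.fract, hfl]
    push_cast
    field_simp
  have hpos : 0 < 1 - a * y := by linarith
  refine ⟨h0, h1, by norm_num, ?_, ?_⟩
  · change rem y 1 ≠ 0
    rw [hrem]
    positivity
  · change (a' : ℤ) = ⌊1 / rem y 1⌋
    symm
    rw [hrem, one_div_div, Int.floor_eq_iff]
    push_cast
    constructor
    · rw [le_div_iff₀ hpos]; exact h4
    · rw [div_lt_iff₀ hpos]; exact h5

section

variable {x : ℝ} (hx1 : 0.247675 < x) (hx2 : x < 0.247677)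

include hx1 hx2

theorem pq1 : IsPQ x 1 4 := by
  apply isPQ_one <;> norm_num at * <;> linarith

theorem pq2 : IsPQ (x - 1 / 5) 1 20 := by
  apply isPQ_one <;> norm_num at * <;> linarith

theorem pq3 : IsPQ (x - 1 / 20) 2 17 := by
  apply isPQ_two (a := 5) <;> norm_num at * <;> linarith

theorem pq4 : IsPQ (x - 18 / 91) 2 19 := by
  apply isPQ_two (a := 20) <;> norm_num at * <;> linarith

end

/-- **Main result**: there is an open interval of `x ∈ (0, 1)` for which the procedure computes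
`c_1 = 5`, `b_1 = 20`, `c_2 = 18`, `b_2 = 19`, so that `b_2 < b_1`. -/
theorem result : ∃ u v : ℝ, 0 < u ∧ u < v ∧ v < 1 ∧ ∀ x : ℝ, u < x → x < v →
    (∃ c b : ℕ → ℕ, Computes x 2 c b) ∧
    ∀ c b : ℕ → ℕ, Computes x 2 c b → c 1 = 5 ∧ b 1 = 20 ∧ c 2 = 18 ∧ b 2 = 19 ∧ b 2 < b 1 := by
  refine ⟨0.247675, 0.247677, by norm_num, by norm_num, by norm_num, ?_⟩
  intro x hx1 hx2
  have e5 : cf [5] = 1 / 5 := by norm_num [cf]
  have e20 : cf [20] = 1 / 20 := by norm_num [cf]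
  have e518 : cf [5, 18] = 18 / 91 := by norm_num [cf]
  have hlist1 : ∀ d : ℕ → ℕ, firstTerms d 1 = [d 1] := fun d => rfl
  have hlist2 : ∀ d : ℕ → ℕ, firstTerms d 2 = [d 1, d 2] := fun d => rfl
  constructor
  · refine ⟨fun n => if n = 1 then 5 else 18, fun n => if n = 1 then 20 else 19, ?_, ?_, ?_⟩
    · exact ⟨4, pq1 hx1 hx2, rfl⟩
    · intro i h1 h2
      obtain rfl | rfl : i = 1 ∨ i = 2 := by omega
      · rw [hlist1]
        change IsPQ (x - cf [5]) 1 20
        rw [e5]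
        exact pq2 hx1 hx2
      · rw [hlist2]
        change IsPQ (x - cf [5, 18]) 2 19
        rw [e518]
        exact pq4 hx1 hx2
    · intro i h1 h2
      obtain rfl : i = 1 := by omega
      refine ⟨17, ?_, rfl⟩
      rw [hlist1]
      change IsPQ (x - cf [20]) 2 17
      rw [e20]
      exact pq3 hx1 hx2
  · intro c b h
    obtain ⟨a, ha, hc1⟩ := h.first
    have ha4 : a = 4 := isPQ_unique ha (pq1 hx1 hx2)
    rw [ha4] at hc1
    have hb1 := h.stepb 1 le_rfl (by norm_num)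
    rw [hlist1, hc1, e5] at hb1
    have hb1' : b 1 = 20 := isPQ_unique hb1 (pq2 hx1 hx2)
    obtain ⟨a', ha', hc2⟩ := h.stepc 1 le_rfl (by norm_num)
    rw [hlist1, hb1', e20] at ha'
    have ha17 : a' = 17 := isPQ_unique ha' (pq3 hx1 hx2)
    have hc2' : c 2 = 18 := by rw [hc2, ha17]
    have hb2 := h.stepb 2 (by norm_num) le_rfl
    rw [hlist2, hc1, hc2', e518] at hb2
    have hb2' : b 2 = 19 := isPQ_unique hb2 (pq4 hx1 hx2)
    refine ⟨hc1, hb1', hc2', hb2', ?_⟩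
    rw [hb1', hb2']
    norm_num

end Pool.Agent.Results.MP_7100ec_nt.NotMonotone
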